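import Pool.Agent.W523.LV.Stmts
import Pool.Agent.H886R3.TaskEMB

set_option autoImplicit false
set_option linter.all false

open Finset

namespace Pool.Agent.W918.LV

open Pool.Agent.W523.LV
open Pool.Agent.H96R3.BC (vv UU CC cf Wts Bf EE NN KK mem_CC)
open Pool.Agent.H394R3.ET (KC AS Mass HH)
open Pool.Agent.H13R3.EM (Sel cv)

theorem prod_diff (s : Finset ℕ) (a b : ℕ → ℝ) (D : ℝ) (ha : ∀ i ∈ s, |a i| ≤ 1) (hb : ∀ i ∈ s, |b i| ≤ 1)
    (h : ∀ i ∈ s, |a i - b i| ≤ D) : |∏ i ∈ s, a i - ∏ i ∈ s, b i| ≤ s.card * D := by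
  classical
  induction s using Finset.induction_on with
  | empty => simp
  | insert x s hx ih =>
    rw [prod_insert hx, prod_insert hx, card_insert_of_notMem hx]
    have h1 := ih (fun i hi => ha i (mem_insert_of_mem hi)) (fun i hi => hb i (mem_insert_of_mem hi))
      (fun i hi => h i (mem_insert_of_mem hi))
    have hbs : |∏ i ∈ s, b i| ≤ 1 := by
      rw [abs_prod]
      exact prod_le_one (fun i _ => abs_nonneg _) (fun i hi => hb i (mem_insert_of_mem hi))
    have e : a x * ∏ i ∈ s, a i - b x * ∏ i ∈ s, b i =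
        a x * (∏ i ∈ s, a i - ∏ i ∈ s, b i) + (a x - b x) * ∏ i ∈ s, b i := by ring
    rw [e]
    have h2 : |a x * (∏ i ∈ s, a i - ∏ i ∈ s, b i)| ≤ s.card * D := by
      rw [abs_mul]
      calc |a x| * |∏ i ∈ s, a i - ∏ i ∈ s, b i| ≤ 1 * (s.card * D) :=
            mul_le_mul (ha x (mem_insert_self _ _)) h1 (abs_nonneg _) zero_le_one
        _ = _ := one_mul _
    have h3 : |(a x - b x) * ∏ i ∈ s, b i| ≤ D := by
      rw [abs_mul]
      calc |a x - b x| * |∏ i ∈ s, b i| ≤ D * 1 :=
            mul_le_mul (h x (mem_insert_self _ _)) hbs (abs_nonneg _) ((abs_nonneg _).trans (h x (mem_insert_self _ _)))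
        _ = _ := mul_one _
    refine (abs_add_le _ _).trans ?_
    push_cast
    linarith

theorem cf_prime (y : ℕ → ℝ) {p : ℕ} (hp : p.Prime) : cf y p = y p := by
  unfold cf
  rw [if_pos hp.prime.squarefree, hp.primeFactors, prod_singleton]

theorem cf_one (y : ℕ → ℝ) : cf y 1 = 1 := by
  unfold cf
  simp

theorem cf_le (g : ℕ → ℝ) (hg : ∀ p : ℕ, p.Prime → |g p| ≤ 1) (n : ℕ) : |cf g n| ≤ 1 := by
  unfold cf
  split_ifs with h
  · rw [abs_prod]
    exact prod_le_one (fun i _ => abs_nonneg _) (fun i hi => hg i (Nat.prime_of_mem_primeFactors hi))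
  · simp

theorem card_pf (n : ℕ) (hn : Squarefree n) : ((n.primeFactors.card : ℕ) : ℝ) ≤ Real.log n / Real.log 2 := by
  have h0 : n ≠ 0 := hn.ne_zero
  have h1 : 2 ^ n.primeFactors.card ≤ n := by
    calc 2 ^ n.primeFactors.card ≤ ∏ p ∈ n.primeFactors, p :=
          Finset.pow_card_le_prod _ _ _ (fun p hp => (Nat.prime_of_mem_primeFactors hp).two_le)
      _ = n := Nat.prod_primeFactors_of_squarefree hn
  have h2 : (2 : ℝ) ^ n.primeFactors.card ≤ n := by exact_mod_cast h1
  have h3 := Real.log_le_log (by positivity) h2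
  rw [Real.log_pow] at h3
  rw [le_div_iff₀ (Real.log_pos (by norm_num))]
  exact h3

/-- pointwise bound -/
theorem pw (y y' s : ℕ → ℝ) (X D : ℝ) (T : ℕ) (hX : 16 ≤ X) (hXT : X ≤ 2 * T) (hD : 0 ≤ D)
    (hy : ∀ p : ℕ, p.Prime → |y p| ≤ 1) (hy' : ∀ p : ℕ, p.Prime → |y' p| ≤ 1)
    (hs : ∀ n : ℕ, s n ≠ 0 → n.Prime ∧ T < n)
    (hd : ∀ p : ℕ, p.Prime → (p : ℝ) ≤ X → |y p - y' p - s p| ≤ D) (n : ℕ) (hn : 1 ≤ n) (hnX : (n : ℝ) ≤ X) :
    |cf y n - cf y' n - s n| ≤ Real.log X / Real.log 2 * D := by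
  have hl2 : 0 < Real.log 2 := Real.log_pos (by norm_num)
  have hL1 : 1 ≤ Real.log X / Real.log 2 := by
    rw [le_div_iff₀ hl2, one_mul]
    exact Real.log_le_log (by norm_num) (by linarith)
  have hL0 : 0 ≤ Real.log X / Real.log 2 * D := by positivity
  by_cases hsq : Squarefree n
  · by_cases hp : n.Prime
    · rw [cf_prime y hp, cf_prime y' hp]
      refine (hd n hp hnX).trans ?_
      nlinarith
    · have hsn : s n = 0 := by
        by_contra h
        exact hp (hs n h).1
      rw [hsn, sub_zero]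
      unfold cf
      rw [if_pos hsq, if_pos hsq]
      have hn0 : n ≠ 0 := by omega
      have hsmall : ∀ p ∈ n.primeFactors, |y p - y' p| ≤ D := by
        intro p hpn
        have hpp := Nat.prime_of_mem_primeFactors hpn
        have hdvd := Nat.dvd_of_mem_primeFactors hpn
        obtain ⟨k, hk⟩ := hdvd
        have hk1 : k ≠ 1 := by
          rintro rfl
          apply hp
          rw [hk, mul_one]
          exact hpp
        have hk0 : k ≠ 0 := by
          rintro rfl
          exact hn0 (by rw [hk, mul_zero])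
        have hk2 : 2 ≤ k := by omega
        have h2p : 2 * p ≤ n := by
          rw [hk]
          nlinarith [hpp.pos]
        have h2p' : 2 * (p : ℝ) ≤ n := by exact_mod_cast h2p
        have hpT : (p : ℝ) ≤ T := by linarith
        have hpT' : p ≤ T := by exact_mod_cast hpT
        have hsp : s p = 0 := by
          by_contra h
          have := (hs p h).2
          omega
        have hp0 : (0 : ℝ) ≤ p := by positivity
        have := hd p hpp (by linarith)
        rw [hsp, sub_zero] at this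
        exact this
      refine (prod_diff _ y y' D (fun p hp => hy p (Nat.prime_of_mem_primeFactors hp))
        (fun p hp => hy' p (Nat.prime_of_mem_primeFactors hp)) hsmall).trans ?_
      apply mul_le_mul_of_nonneg_right _ hD
      refine (card_pf n hsq).trans ?_
      apply div_le_div_of_nonneg_right _ hl2.le
      exact Real.log_le_log (by exact_mod_cast hn) hnX
  · have hsn : s n = 0 := by
      by_contra h
      exact hsq (hs n h).1.prime.squarefree
    rw [hsn]
    unfold cf
    rw [if_neg hsq, if_neg hsq]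
    simpa using hL0

theorem sumb (y y' s : ℕ → ℝ) (X M : ℝ) (hM : 0 ≤ M)
    (h : ∀ n : ℕ, 1 ≤ n → (n : ℝ) ≤ X → |cf y n - cf y' n - s n| ≤ M) (x : ℝ) (hx : 0 ≤ x) (hxX : x ≤ X) :
    |AS (cf y) x - AS (cf y') x - AS s x| ≤ x * M := by
  show |Pool.Agent.H13R3.EM.EE (cf y) x - Pool.Agent.H13R3.EM.EE (cf y') x - Pool.Agent.H13R3.EM.EE s x| ≤ _
  unfold Pool.Agent.H13R3.EM.EE
  rw [← sum_sub_distrib, ← sum_sub_distrib]
  refine (abs_sum_le_sum_abs _ _).trans ?_
  have h1 : ∀ n ∈ Icc 1 ⌊x⌋₊, |cf y n - cf y' n - s n| ≤ M := by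
    intro n hn
    rw [mem_Icc] at hn
    have h2 : (n : ℝ) ≤ x := (Nat.le_floor_iff hx).1 hn.2
    exact h n hn.1 (h2.trans hxX)
  refine (sum_le_card_nsmul _ _ _ h1).trans ?_
  rw [Nat.card_Icc, nsmul_eq_mul]
  apply mul_le_mul_of_nonneg_right _ hM
  have : ((⌊x⌋₊ + 1 - 1 : ℕ) : ℝ) = ⌊x⌋₊ := by simp
  rw [this]
  exact Nat.floor_le hx

theorem taskPert : TaskPert := by
  intro y y' s g X D T hX hXT hD hy hy' hg hs hd x hx1 hxX
  have hl2 : 0 < Real.log 2 := Real.log_pos (by norm_num)
  have hl2' : 0.6931471803 < Real.log 2 := Real.log_two_gt_d9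
  have hX0 : 0 < X := by linarith
  have hx0 : 0 < x := by linarith
  have hlX : 2.77 ≤ Real.log X := by
    have h1 : Real.log 16 ≤ Real.log X := Real.log_le_log (by norm_num) hX
    have h2 : Real.log 16 = 4 * Real.log 2 := by
      rw [show (16 : ℝ) = 2 ^ 4 by norm_num, Real.log_pow]
      norm_num
    rw [h2] at h1
    linarith
  set L : ℝ := Real.log X / Real.log 2 with hL
  have hL0 : 0 ≤ L := by positivity
  have hLe : L * Real.log 2 = Real.log X := by
    rw [hL]
    field_simp
  have hLD : 0 ≤ L * D := by positivity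
  have hkey : L * (1 + Real.log X) ≤ 4 * (Real.log X) ^ 2 := by
    have h1 : L ≤ Real.log X / 0.6931471803 := by
      rw [hL]
      apply div_le_div_of_nonneg_left (by linarith) (by norm_num) hl2'.le
    calc L * (1 + Real.log X) ≤ (Real.log X / 0.6931471803) * (1 + Real.log X) := by
          apply mul_le_mul_of_nonneg_right h1 (by linarith)
      _ ≤ 4 * (Real.log X) ^ 2 := by
          rw [div_mul_eq_mul_div, div_le_iff₀ (by norm_num)]
          nlinarith
  have hpw := pw y y' s X D T hX hXT hD hy hy' hs hd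
  have hsum := sumb y y' s X (L * D) hLD hpw
  constructor
  · refine (hsum x hx0.le hxX).trans ?_
    calc x * (L * D) ≤ X * (L * (1 + Real.log X) * D) := by
          apply mul_le_mul hxX _ hLD hX0.le
          apply mul_le_mul_of_nonneg_right _ hD
          nlinarith
      _ ≤ X * (4 * (Real.log X) ^ 2 * D) := by
          apply mul_le_mul_of_nonneg_left _ hX0.le
          exact mul_le_mul_of_nonneg_right hkey hD
      _ = _ := by ring
  · show |Pool.Agent.H13R3.EM.EE (cv (cf g) (cf y)) x - Pool.Agent.H13R3.EM.EE (cv (cf g) (cf y')) x - AS s x| ≤ _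
    rw [Pool.Agent.H886R3.EMB.EE_cv, Pool.Agent.H886R3.EMB.EE_cv]
    have hfl : 1 ≤ ⌊x⌋₊ := (Nat.one_le_floor_iff x).2 hx1
    have hmem : (1 : ℕ) ∈ Icc 1 ⌊x⌋₊ := by simp [hfl]
    have e1 : (∑ k ∈ Icc 1 ⌊x⌋₊, cf g k * Pool.Agent.H13R3.EM.EE (cf y) (x / k)) -
        (∑ k ∈ Icc 1 ⌊x⌋₊, cf g k * Pool.Agent.H13R3.EM.EE (cf y') (x / k)) - AS s x =
        ∑ k ∈ Icc 1 ⌊x⌋₊, cf g k * (AS (cf y) (x / k) - AS (cf y') (x / k) - AS s (x / k)) := by
      have e2 : AS s x = ∑ k ∈ Icc 1 ⌊x⌋₊, cf g k * AS s (x / k) := by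
        rw [← add_sum_erase _ _ hmem, cf_one, one_mul, Nat.cast_one, div_one]
        have : ∑ k ∈ (Icc 1 ⌊x⌋₊).erase 1, cf g k * AS s (x / k) = 0 := by
          apply sum_eq_zero
          intro k hk
          simp only [mem_erase, mem_Icc] at hk
          have hk2 : (2 : ℝ) ≤ k := by exact_mod_cast (by omega : 2 ≤ k)
          have h1 : AS s (x / k) = 0 := by
            show Pool.Agent.H13R3.EM.EE s (x / k) = 0
            unfold Pool.Agent.H13R3.EM.EE
            apply sum_eq_zero
            intro m hm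
            rw [mem_Icc] at hm
            have h2 : (m : ℝ) ≤ x / k := (Nat.le_floor_iff (by positivity)).1 hm.2
            have h3 : x / k ≤ x / 2 := div_le_div_of_nonneg_left hx0.le (by norm_num) hk2
            have h4 : (m : ℝ) ≤ T := by linarith
            have h5 : m ≤ T := by exact_mod_cast h4
            by_contra h6
            have := (hs m h6).2
            omega
          rw [h1, mul_zero]
        rw [this, add_zero]
      rw [e2, ← sum_sub_distrib, ← sum_sub_distrib]
      apply sum_congr rfl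
      intro k _
      ring
    rw [e1]
    have h1 : ∀ k ∈ Icc 1 ⌊x⌋₊, |cf g k * (AS (cf y) (x / k) - AS (cf y') (x / k) - AS s (x / k))| ≤
        x * (L * D) * ((k : ℝ))⁻¹ := by
      intro k hk
      rw [mem_Icc] at hk
      have hk1 : (1 : ℝ) ≤ k := by exact_mod_cast hk.1
      rw [abs_mul]
      have h2 : x / k ≤ X := (div_le_self hx0.le hk1).trans hxX
      have h3 := hsum (x / k) (by positivity) h2
      calc |cf g k| * |AS (cf y) (x / k) - AS (cf y') (x / k) - AS s (x / k)| ≤ 1 * (x / k * (L * D)) :=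
            mul_le_mul (cf_le g hg k) h3 (abs_nonneg _) zero_le_one
        _ = _ := by
            rw [div_eq_mul_inv]
            ring
    refine (abs_sum_le_sum_abs _ _).trans ((sum_le_sum h1).trans ?_)
    rw [← mul_sum]
    have h2 : ∑ k ∈ Icc 1 ⌊x⌋₊, ((k : ℝ))⁻¹ ≤ 1 + Real.log X := by
      have h3 := harmonic_floor_le_one_add_log x hx1
      rw [harmonic_eq_sum_Icc] at h3
      push_cast at h3
      have h4 := Real.log_le_log hx0 hxX
      linarith
    calc x * (L * D) * ∑ k ∈ Icc 1 ⌊x⌋₊, ((k : ℝ))⁻¹ ≤ x * (L * D) * (1 + Real.log X) :=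
          mul_le_mul_of_nonneg_left h2 (by positivity)
      _ = x * (L * (1 + Real.log X) * D) := by ring
      _ ≤ X * (4 * (Real.log X) ^ 2 * D) := by
          apply mul_le_mul hxX _ (by positivity) hX0.le
          exact mul_le_mul_of_nonneg_right hkey hD
      _ = _ := by ring

end Pool.Agent.W918.LV
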